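import Pool.Agent.R241.SK4

/-!
# MP_28f8a1_an: hyperbolicity is dense at every polynomial over every aperiodic system

Let `T` be a complex polynomial of degree at least two. We show that over every homeomorphism `f`
without periodic points of a compact totally disconnected space `Y` (odometers, minimal
subshifts, ...) there are continuous functions `a : Y → ℂ`, of arbitrarily small size, such that the
skew product `(y, z) ↦ (f y, T z + a y)` is hyperbolic: the postcritical orbits are uniformly
exponentially stable in the spherical metric. For a one-point space `Y` the same conclusion would be
density of hyperbolicity at `T` (with perturbations of the constant term).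

The function `a` takes finitely many values: `a y` depends only on the time which has passed since
the orbit of `y` visited a clopen set whose return times are all between `N` and `2 N`, and the
values are chosen at random; a critical orbit which is not robustly trapped is sent to infinity with
positive probability in bounded time.
-/

set_option autoImplicit false

open Polynomial

namespace Pool.Agent.Results.MP_28f8a1_an.AperiodicSkewProducts

open Pool.Agent.R241.SK

/-- Let `T` be a complex polynomial of degree at least two, `f` a homeomorphism without periodic
points of a compact Hausdorff totally disconnected space, and `ε > 0`. Then there is a continuous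
function `a` with finitely many values, all of modulus less than `ε`, such that the skew product
`(y, z) ↦ (f y, T z + a y)` is hyperbolic. -/
theorem result (T : ℂ[X]) (hT : 2 ≤ T.natDegree) {Y : Type} [TopologicalSpace Y] [CompactSpace Y]
    [T2Space Y] [TotallyDisconnectedSpace Y] (f : Y ≃ₜ Y)
    (hf : ∀ (y : Y) (n : ℕ), 0 < n → f^[n] y ≠ y) (ε : ℝ) (hε : 0 < ε) :
    ∃ a : Y → ℂ, Continuous a ∧ (Set.range a).Finite ∧ (∀ y, ‖a y‖ < ε) ∧
      Hyperbolic f fun y => T + C (a y) :=
  main hT f hf hε

end Pool.Agent.Results.MP_28f8a1_an.AperiodicSkewProducts
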