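import Mathlib
import Pool.Agent.R241.NRDef
import Pool.Agent.R241.NQ3

/-!
# Uniform and explicit coarse density for periodic perturbations

The conjecture says that every polynomial `T` of degree at least two is made hyperbolic by an
arbitrarily small perturbation. Here the perturbation is periodic in time: we consider the
compositions `(T + a (N - 1)) ∘ ⋯ ∘ (T + a 1) ∘ (T + a 0)` with `|a i| < ε`. On every compact set of
polynomials of degree `d`, some such composition is hyperbolic for EVERY `N ≥ exp (C / ε ^ 7)`, with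
a constant `C` which depends only on the compact set, and in fact most of them are, if the size of the
perturbations is chosen between `ε / 2` and `ε` in a suitable way depending on `T`.

Method. Let `K δ` be the set of the points whose orbits stay bounded under all kicks smaller than
`δ`. Its area decreases with `δ`, so there are two sizes `δ < δ'` between `ε / 2` and `ε`, at the
distance of the order `ε ^ 3`, with `area (K δ \ K δ')` smaller than `ε ^ 2 / 10`. From a point of
`K δ` a random kick of size `δ'` leads to `K δ'` with probability at least `1 / 8`, and a point outside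
of `K δ` is sent to infinity by at most `C / ε ^ 6` kicks smaller than `(δ + δ') / 2` (loops are cut),
hence with an explicit positive probability by random kicks of size `δ'`. So the critical orbits are
absorbed by `K δ'` or by infinity with explicit exponential rates.
-/

set_option autoImplicit false

open Polynomial MeasureTheory

namespace Pool.Agent.Results.MP_28f8a1_an.ExplicitPeriod

open Pool.Agent.R241.NR

/-- For all `d ≥ 2` and `M > 0` there is `C` such that for all polynomials `T` of degree `d` with
coefficients bounded by `M` and with leading coefficient at least `1 / M` in modulus, and for all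
`0 < ε ≤ 1`, there is `δ` between `ε / 2` and `ε` such that for all `N ≥ exp (C / ε ^ 7)`:

(1) if `a 0, …, a (N - 1)` are independent and uniformly distributed in the disc of radius `δ`, then
the composition `(T + a (N - 1)) ∘ ⋯ ∘ (T + a 0)` is not hyperbolic with probability at most
`exp (- N exp (- C / ε ^ 7))`;

(2) in particular there are `a 0, …, a (N - 1)` of modulus less than `ε` for which the composition is
hyperbolic. -/
theorem result (d : ℕ) (hd : 2 ≤ d) (M : ℝ) (hM : 0 < M) : ∃ C : ℝ, 0 < C ∧
    ∀ T : ℂ[X], T.natDegree = d → (∀ i : ℕ, ‖T.coeff i‖ ≤ M) → 1 / M ≤ ‖T.leadingCoeff‖ →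
      ∀ ε : ℝ, 0 < ε → ε ≤ 1 → ∃ δ : ℝ, ε / 2 ≤ δ ∧ δ ≤ ε ∧
        ∀ N : ℕ, Real.exp (C / ε ^ 7) ≤ N →
          Measure.pi (fun _ : Fin N => unif δ) {a : Fin N → ℂ | ¬ Hyperbolic (comp T N a)} ≤
            ENNReal.ofReal (Real.exp (-(N * Real.exp (-(C / ε ^ 7))))) ∧
          ∃ a : Fin N → ℂ, (∀ i, ‖a i‖ < ε) ∧ Hyperbolic (comp T N a) := by
  obtain ⟨C, hC, h⟩ := main_q d hd M hM
  refine ⟨C, hC, fun T hT h1 h2 ε hε hε1 => ?_⟩
  obtain ⟨δ, hδ1, hδ2, h3⟩ := h T hT h1 h2 ε hε hε1
  refine ⟨δ, hδ1, hδ2, fun N hN => ⟨h3 N hN, ?_⟩⟩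
  have hδ : 0 < δ := by linarith
  have hN0 : (0 : ℝ) < N := (Real.exp_pos _).trans_le hN
  have := isProb hδ
  by_contra hcon
  push Not at hcon
  set Null : Set (Fin N → ℂ) := ⋃ i : Fin N, (Function.eval i) ⁻¹' (Metric.ball (0 : ℂ) δ)ᶜ
    with hNull
  have hnull : Measure.pi (fun _ : Fin N => unif δ) Null = 0 := by
    rw [hNull, measure_iUnion_null_iff]
    intro i
    exact Measure.pi_eval_preimage_null (fun _ : Fin N => unif δ) (unif_compl hδ)
  have hsub : (Set.univ : Set (Fin N → ℂ)) ⊆ Null ∪ {a | ¬ Hyperbolic (comp T N a)} := by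
    intro a _
    by_cases ha : ∀ i, ‖a i‖ < δ
    · exact Or.inr (hcon a fun i => (ha i).trans_le hδ2)
    · left
      push Not at ha
      obtain ⟨i, hi⟩ := ha
      refine Set.mem_iUnion.2 ⟨i, ?_⟩
      intro h5
      rw [mem_ball_zero_iff] at h5
      exact absurd h5 (not_lt.2 hi)
  have h4 : (1 : ENNReal) ≤ ENNReal.ofReal (Real.exp (-(N * Real.exp (-(C / ε ^ 7))))) := by
    calc (1 : ENNReal) = Measure.pi (fun _ : Fin N => unif δ) Set.univ := by rw [measure_univ]
      _ ≤ _ := measure_mono hsub
      _ ≤ _ := measure_union_le _ _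
      _ ≤ _ := by rw [hnull, zero_add]; exact h3 N hN
  have h5 : Real.exp (-(N * Real.exp (-(C / ε ^ 7)))) < 1 := by
    rw [Real.exp_lt_one_iff]
    have := Real.exp_pos (-(C / ε ^ 7))
    have : 0 < N * Real.exp (-(C / ε ^ 7)) := by positivity
    linarith
  have h6 : ENNReal.ofReal (Real.exp (-(N * Real.exp (-(C / ε ^ 7))))) < 1 := by
    rw [← ENNReal.ofReal_one]
    exact (ENNReal.ofReal_lt_ofReal_iff one_pos).2 h5
  exact absurd h4 (not_le.2 h6)

end Pool.Agent.Results.MP_28f8a1_an.ExplicitPeriod
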