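import Mathlib
import Pool.Agent.R241.NRDef
import Pool.Agent.R241.NS3

/-!
# Hyperbolicity, kicks, and the number of kicks needed

The orbits of a polynomial `T` are perturbed by kicks: `z (n + 1) = T (z n) + a n`. A polynomial is
hyperbolic if and only if small kicks do not change the fate (escaping to infinity or not) of its
critical points, and for polynomials which are not hyperbolic the number of kicks of size less than
`ε` which are needed to send a non-escaping critical point to infinity is bounded by an explicit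
constant times `1 / ε ^ 2`. So the conjecture that the hyperbolic polynomials are dense says that
every polynomial is a limit of polynomials whose critical points are stable under kicks.

Method. Let `K` be the set of the points whose orbits stay bounded under all the kicks smaller than
`ε / 2`. It is mapped by `T` into itself with a margin, so `T` is uniformly contracting on `K` and all
its points are attracted by sinks. A point outside of `K` can be sent to infinity, and a path with
kicks smaller than `ε / 2` can be shortened to a path with kicks smaller than `ε` by cutting loops,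
until all its points have mutual distances at least `ε / 2`.
-/

set_option autoImplicit false

open Filter Topology Polynomial

namespace Pool.Agent.Results.MP_28f8a1_an.KickStability

open Pool.Agent.R241.NR

/-- The orbit of `z` under `T` with the kicks `a`: it starts at `z`, and the point after `w` is
`T w + a n` at the time `n`. -/
def kickedOrbit (T : ℂ[X]) (a : ℕ → ℂ) (z : ℂ) : ℕ → ℂ
  | 0 => z
  | n + 1 => T.eval (kickedOrbit T a z n) + a n

/-- The kicks `a` send the point `z` to infinity (for `a = 0`: the orbit of `z` escapes). -/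
def SentToInfinity (T : ℂ[X]) (a : ℕ → ℂ) (z : ℂ) : Prop :=
  Tendsto (fun n : ℕ => ‖kickedOrbit T a z n‖) atTop atTop

theorem kickedOrbit_eq (T : ℂ[X]) (a : ℕ → ℂ) (z : ℂ) (n : ℕ) :
    kickedOrbit T a z n = S (fun w => T.eval w) a n z := by
  induction n with
  | zero => rfl
  | succ n ih => rw [kickedOrbit, ih, S]

theorem sent_iff (T : ℂ[X]) (a : ℕ → ℂ) (z : ℂ) :
    SentToInfinity T a z ↔ NoisyEscapes (fun w => T.eval w) a z := by
  unfold SentToInfinity NoisyEscapes
  simp only [kickedOrbit_eq]

theorem sent_zero_iff (T : ℂ[X]) (z : ℂ) :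
    SentToInfinity T (fun _ => 0) z ↔ Escapes (fun w => T.eval w) z := by
  rw [sent_iff]
  unfold NoisyEscapes Escapes
  simp only [S_zero]

/-- Let `T` be a complex polynomial of degree `d ≥ 2` whose coefficients are bounded by `M` and whose
leading coefficient is at least `1 / M` in modulus.

(1) If `T` is hyperbolic then there is `ε > 0` such that no kicks smaller than `ε` change the fate of
a critical point: with the kicks it is sent to infinity if and only if it escapes without kicks.

(2) If a point `z` is not attracted by a sink of `T` then, for every `ε ≤ 1`, kicks smaller than `ε`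
at the times less than `111 d ^ 2 M ^ 4 / ε ^ 2` (and no kicks later) suffice to send it to infinity.

(3) So if `T` is not hyperbolic then for every `ε ≤ 1` some critical point which does not escape is
sent to infinity by such kicks. -/
theorem result (d : ℕ) (hd : 2 ≤ d) (M : ℝ) (hM : 0 < M) (T : ℂ[X]) (hT : T.natDegree = d)
    (h1 : ∀ i : ℕ, ‖T.coeff i‖ ≤ M) (h2 : 1 / M ≤ ‖T.leadingCoeff‖) :
    (Hyperbolic T → ∃ ε : ℝ, 0 < ε ∧ ∀ c : ℂ, (derivative T).eval c = 0 → ∀ a : ℕ → ℂ,
      (∀ i, ‖a i‖ < ε) → (SentToInfinity T a c ↔ SentToInfinity T (fun _ => 0) c)) ∧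
    (∀ z : ℂ, ¬ Attracted (fun w => T.eval w) z → ∀ ε : ℝ, 0 < ε → ε ≤ 1 → ∃ a : ℕ → ℂ,
      (∀ i, ‖a i‖ < ε) ∧ (∀ i : ℕ, 111 * d ^ 2 * M ^ 4 / ε ^ 2 ≤ i → a i = 0) ∧
      SentToInfinity T a z) ∧
    (¬ Hyperbolic T → ∀ ε : ℝ, 0 < ε → ε ≤ 1 → ∃ c : ℂ, (derivative T).eval c = 0 ∧
      ¬ SentToInfinity T (fun _ => 0) c ∧ ∃ a : ℕ → ℂ,
      (∀ i, ‖a i‖ < ε) ∧ (∀ i : ℕ, 111 * d ^ 2 * M ^ 4 / ε ^ 2 ≤ i → a i = 0) ∧
      SentToInfinity T a c) := by
  have key : ∀ z : ℂ, ¬ Attracted (fun w => T.eval w) z → ∀ ε : ℝ, 0 < ε → ε ≤ 1 → ∃ a : ℕ → ℂ,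
      (∀ i, ‖a i‖ < ε) ∧ (∀ i : ℕ, 111 * d ^ 2 * M ^ 4 / ε ^ 2 ≤ i → a i = 0) ∧
      SentToInfinity T a z := by
    intro z hz ε hε hε1
    rcases dichotomy hd hM hT h1 h2 hε hε1 z with h | h
    · exact absurd h hz
    · obtain ⟨a, ha, hb, hc⟩ := h
      exact ⟨a, ha, hb, (sent_iff T a z).2 hc⟩
  refine ⟨fun hyp => ?_, key, fun hyp ε hε hε1 => ?_⟩
  · obtain ⟨ε, hε, h⟩ := stable_of_hyperbolic T (by omega) hyp
    refine ⟨ε, hε, fun c hc a ha => ?_⟩
    rw [sent_iff, sent_zero_iff]
    exact h c hc a ha
  · unfold Hyperbolic at hyp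
    push Not at hyp
    obtain ⟨c, hc, h3, h4⟩ := hyp
    exact ⟨c, hc, fun h => h3 ((sent_zero_iff T c).1 h), key c h4 ε hε hε1⟩

end Pool.Agent.Results.MP_28f8a1_an.KickStability
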