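import Mathlib
import Pool.Agent.R241.NRDef
import Pool.Agent.R241.NR4

/-!
# Hyperbolicity is dense, with exponentially small exceptional sets, for periodic perturbations

The conjecture says that every polynomial `T` of degree at least two can be made hyperbolic by an
arbitrarily small perturbation. Here we perturb `T` periodically in time: the polynomials
`T + a 0, T + a 1, …, T + a (N - 1)` are applied one after the other, and this is repeated
periodically; the return map of this system is the composition
`(T + a (N - 1)) ∘ ⋯ ∘ (T + a 1) ∘ (T + a 0)`. For every `T` and every `ε > 0` the proportion of the
`a` in the polydisc of radius `ε` for which the composition is not hyperbolic is exponentially small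
in `N`; in particular for every large `N` there are arbitrarily small perturbations of this kind with
a hyperbolic composition.

Method. Let `A` be the union of the complement of a large disc and of the set `K` of the points
whose orbits stay bounded under all the perturbations smaller than `ε`. The set `A` is absorbing, and
from each point the random orbit gets absorbed with an exponentially small exception. The critical
points of the composition are the critical points of `T` at the different times modulo `N`, and
the orbit of each of them is, during the next `N` steps, a random orbit with independent
perturbations. If all of them are absorbed then the composition is hyperbolic: `K` is mapped by the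
composition into itself with a margin, so the composition is uniformly contracting on `K`.
-/

set_option autoImplicit false

open Polynomial MeasureTheory

namespace Pool.Agent.Results.MP_28f8a1_an.PeriodicPerturbations

open Pool.Agent.R241.NR

/-- Let `T` be a complex polynomial of degree at least two and `ε > 0`. There are `K` and `θ < 1`
such that, for all `N`, if `a 0, …, a (N - 1)` are independent and uniformly distributed in the disc
of radius `ε`, then the probability that the polynomial
`(T + a (N - 1)) ∘ ⋯ ∘ (T + a 1) ∘ (T + a 0)` is not hyperbolic is at most `K θ ^ N`. -/
theorem result (T : ℂ[X]) (hT : 2 ≤ T.natDegree) (ε : ℝ) (hε : 0 < ε) :
    ∃ K θ : ℝ, 0 < K ∧ 0 < θ ∧ θ < 1 ∧ ∀ N : ℕ,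
      Measure.pi (fun _ : Fin N => unif ε) {a : Fin N → ℂ | ¬ Hyperbolic (comp T N a)} ≤
        ENNReal.ofReal (K * θ ^ N) :=
  main T hT ε hε

end Pool.Agent.Results.MP_28f8a1_an.PeriodicPerturbations
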